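import Pool.Agent.H.MP_47869a_co.B

namespace Pool.Agent.Results.MP_47869a_co.AllN

/-- `p` contains the uniform distant pattern `dist_r(q)`. -/
def Contains {m n : ℕ} (r : ℕ) (q : Equiv.Perm (Fin m)) (p : Equiv.Perm (Fin n)) : Prop :=
  ∃ f : Fin m → Fin n, (∀ a b : Fin m, (a : ℕ) + 1 = b → (f a : ℕ) + r + 1 ≤ f b) ∧
    ∀ a b, p (f a) < p (f b) ↔ q a < q b

theorem result (m : ℕ) (hm : 3 ≤ m) (r n : ℕ) :
    Nat.card {p : Equiv.Perm (Fin n) //
        ¬ Contains r (Equiv.swap (⟨m - 2, by omega⟩ : Fin m) ⟨m - 1, by omega⟩) p} ≤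
      Nat.card {p : Equiv.Perm (Fin n) // ¬ Contains r (1 : Equiv.Perm (Fin m)) p} := by
  classical
  obtain ⟨K, rfl⟩ : ∃ K, m = K + 3 := ⟨m - 3, by omega⟩
  rw [Nat.card_eq_fintype_card, Nat.card_eq_fintype_card, Fintype.card_subtype,
    Fintype.card_subtype]
  convert Pool.Agent.H.MP_47869a_co.main r K n using 3 <;> rfl

end Pool.Agent.Results.MP_47869a_co.AllN
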